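import Pool.Agent.R200.PT.SGen

/-!
# Absorption of strong coincidences in compositions with non-commuting incidence matrices

`IrrPis M`: `M` is irreducible Pisot (any determinant). `StrongCo`: the combinatorial strong
coincidence condition; `OneCo`: the same with exponent one for all pairs of letters. `Bk M T K`:
the blocks `ρ ∘ τ` with `inc τ = M i ^ k` for some `i` and `k ≥ K`, `det (inc ρ) ≠ 0` and images of
`ρ` of length at most `T`.

Let `M i` be finitely many non-negative irreducible Pisot matrices, not assumed to commute, and let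
`σ` be a substitution with incidence matrix one of them which satisfies the strong coincidence
condition. For all `T` there is `K` such that all compositions, of any length, of blocks, with
`k ≥ K`, at least one of which is of the form `ρ ∘ σ ^ k`, are irreducible Pisot and satisfy the
strong coincidence condition with exponent one. In particular so do all `ρ ∘ σ ^ k`, for every
substitution `ρ` with nonzero determinant and all large `k`.
-/

set_option autoImplicit false

namespace Pool.Agent.Results.MP_396664_co.AbsorbingStrong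

open Pool.Agent.H812R2.PI Pool.Agent.R889.PZ Pool.Agent.R200.PT
open scoped BigOperators

theorem result {m : ℕ} {ι : Type} [Fintype ι] (M : ι → Matrix (Fin (m+1)) (Fin (m+1)) ℤ)
    (hnn : ∀ i a b, 0 ≤ M i a b) (hM : ∀ i, IrrPis (M i)) (i : ι)
    (σ : Fin (m+1) → List (Fin (m+1))) (hi : inc σ = M i) (hσ : StrongCo σ) (T : ℕ) :
    ∃ K : ℕ, ∀ l : List (Fin (m+1) → List (Fin (m+1))), (∀ S ∈ l, Bk M T K S) →
      ∀ (ρ : Fin (m+1) → List (Fin (m+1))) (k : ℕ), K ≤ k → (inc ρ).det ≠ 0 →
        comp ρ (iter σ k) ∈ l → IrrPis (inc (compList l)) ∧ OneCo (compList l) := by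
  obtain ⟨K, hK⟩ := blocks_pisot M hnn hM T
  obtain ⟨K', hK'⟩ := absorb_sc M hM T K i σ hi hσ
  refine ⟨max K K', fun l hl ρ k hk hdet hmem => ?_⟩
  have hl' : ∀ S ∈ l, Bk M T K S := by
    intro S hS
    obtain ⟨ρ', τ, h1, h2, h3, j, k', h4, h5⟩ := hl S hS
    exact ⟨ρ', τ, h1, h2, h3, j, k', (le_max_left _ _).trans h4, h5⟩
  exact ⟨hK l (List.ne_nil_of_mem hmem) hl',
    hK' l hl' ρ k ((le_max_right _ _).trans hk) hdet hmem⟩

end Pool.Agent.Results.MP_396664_co.AbsorbingStrong
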