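import Pool.Agent.R200.PT.SGen

/-!
# Strong coincidences of almost all compositions with non-commuting incidence matrices

Letters are `0, ..., m`; `inc σ` is the incidence matrix of `σ` (entry `(i,j)`: number of letters
`i` in `σ j`), `compList [S₁, ..., S_n] = S₁ ∘ ... ∘ S_n`. `IrrPis M`: `M` is irreducible Pisot; the
determinant is arbitrary. `OneCo` is the combinatorial strong coincidence condition with `k = 1` for
all pairs of letters.

Let `M i` be finitely many non-negative irreducible Pisot matrices of the same size with right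
eigenvectors `u i` of sum one, not assumed to commute. Let `SubSet (u i) (M i ^ k) B` be the set of
the substitutions with incidence matrix `M i ^ k` and discrepancy at most `B`. For all `T` and all
large `B` there are `c > 0`, `K` and exceptional sets `Bad i k ⊆ SubSet (u i) (M i ^ k) B`,
`k ≥ K`, of at most a proportion `exp (- c |M i ^ k|)` (`|A|` is the sum of the entries of `A`),
such that all compositions, of any length, of blocks `ρ ∘ τ` with `det (inc ρ) ≠ 0`, images of `ρ`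
of length at most `T` and `inc τ = M i ^ k`, `k ≥ K`, are irreducible Pisot, and satisfy the strong
coincidence condition, with exponent one, if all `τ` have discrepancy at most `B` and at least one
`τ` is not exceptional. Hence for all `i j`, `k j ≥ K`, `ρ j` this holds for
`ρ 0 ∘ τ 0 ∘ ... ∘ ρ (n-1) ∘ τ (n-1)` for all but a proportion `exp (- c ∑_j |M (i j) ^ (k j)|)` of
the `n`-tuples of `τ j ∈ SubSet (u (i j)) (M (i j) ^ (k j)) B`.

Built on `Pool/Agent/H812R2/PI` (helper812 and others: `generic_UC`) and `Pool/Agent/R889/PZ`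
(helper889).
-/

set_option autoImplicit false

namespace Pool.Agent.Results.MP_396664_co.NonCommutingStrong

open Pool.Agent.H812R2.PI Pool.Agent.R889.PZ Pool.Agent.R200.PT
open scoped BigOperators

theorem result {m : ℕ} {ι : Type} [Fintype ι] (M : ι → Matrix (Fin (m+1)) (Fin (m+1)) ℤ)
    (hnn : ∀ i a b, 0 ≤ M i a b) (hM : ∀ i, IrrPis (M i)) (lam : ι → ℝ) (hlam : ∀ i, 1 < lam i)
    (u : ι → Fin (m+1) → ℝ) (hu : ∀ i a, ∑ b, (M i a b : ℝ) * u i b = lam i * u i a)
    (husum : ∀ i, ∑ a, u i a = 1) (T : ℕ) :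
    ∃ B₀ : ℝ, ∀ B ≥ B₀, ∃ c : ℝ, 0 < c ∧ ∃ K : ℕ,
      ∃ Bad : ι → ℕ → Set (Fin (m+1) → List (Fin (m+1))),
      (∀ i, ∀ k ≥ K, (SubSet (u i) (M i ^ k) B).Finite ∧ (SubSet (u i) (M i ^ k) B).Nonempty ∧
        Bad i k ⊆ SubSet (u i) (M i ^ k) B ∧
        ((Bad i k).ncard : ℝ) ≤ Real.exp (-(c * ∑ a, ∑ b, (((M i ^ k) a b : ℤ) : ℝ))) *
          ((SubSet (u i) (M i ^ k) B).ncard : ℝ)) ∧
      ∀ (n : ℕ) (i : Fin n → ι) (k : Fin n → ℕ), (∀ j, K ≤ k j) →
      ∀ ρ : Fin n → Fin (m+1) → List (Fin (m+1)),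
      (∀ j, (inc (ρ j)).det ≠ 0) → (∀ j a, (ρ j a).length ≤ T) →
        (∀ τ : Fin n → Fin (m+1) → List (Fin (m+1)), (∀ j, inc (τ j) = M (i j) ^ k j) →
            (0 < n → IrrPis (inc (compList (List.ofFn fun j => comp (ρ j) (τ j))))) ∧
            ((∀ j, τ j ∈ SubSet (u (i j)) (M (i j) ^ k j) B) → (∃ j, τ j ∉ Bad (i j) (k j)) →
              OneCo (compList (List.ofFn fun j => comp (ρ j) (τ j))))) ∧
        {τ : Fin n → Fin (m+1) → List (Fin (m+1)) |
          ∀ j, τ j ∈ SubSet (u (i j)) (M (i j) ^ k j) B}.Finite ∧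
        {τ : Fin n → Fin (m+1) → List (Fin (m+1)) |
          ∀ j, τ j ∈ SubSet (u (i j)) (M (i j) ^ k j) B}.Nonempty ∧
        ({τ : Fin n → Fin (m+1) → List (Fin (m+1)) |
          (∀ j, τ j ∈ SubSet (u (i j)) (M (i j) ^ k j) B) ∧
            ¬ OneCo (compList (List.ofFn fun j => comp (ρ j) (τ j)))}.ncard : ℝ) ≤
          Real.exp (-(c * ∑ j, ∑ a, ∑ b, (((M (i j) ^ k j) a b : ℤ) : ℝ))) *
          ({τ : Fin n → Fin (m+1) → List (Fin (m+1)) |
            ∀ j, τ j ∈ SubSet (u (i j)) (M (i j) ^ k j) B}.ncard : ℝ) := by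
  have hall : ∀ i, ∃ R : PD (M i), R.u = u i := fun i => by
    obtain ⟨R, h, -⟩ := exists_PD2 (M i) (hnn i) (hM i) (lam i) (hlam i) (u i) (hu i) (husum i)
    exact ⟨R, h⟩
  choose R hR using hall
  obtain ⟨B₀, hB₀⟩ := bad_strong M hnn hM R T
  simp only [hR] at hB₀
  refine ⟨B₀, fun B hB => ?_⟩
  obtain ⟨c, hc, K, Bad, hbad, hgood⟩ := hB₀ B hB
  refine ⟨c, hc, K, Bad, hbad, fun n i k hk ρ hρ hT => ?_⟩
  refine ⟨fun τ hτ => hgood n i k hk ρ hρ hT τ hτ, ?_⟩
  exact count_of_bad M (fun i k => SubSet (u i) (M i ^ k) B) c K Bad hbad i k hk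
    (fun τ => OneCo (compList (List.ofFn fun j => comp (ρ j) (τ j))))
    (fun τ hτ hj => (hgood n i k hk ρ hρ hT τ (fun j => (hτ j).1)).2 hτ hj)

end Pool.Agent.Results.MP_396664_co.NonCommutingStrong
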