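import Pool.Agent.R200.PT.SGen

/-!
# A zero-one law for the strong coincidence condition

`StrongCo`: the combinatorial strong coincidence condition; `OneCo`: the same with exponent one for
all pairs of letters.

Let `F` be a finite family of non-erasing substitutions on the same alphabet, with arbitrary
incidence matrices. Either no composition of members of the family satisfies the strong coincidence
condition, or all compositions which contain a certain word satisfy it with exponent one, the
probability that a random composition of `k` members does not satisfy it is exponentially small in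
`k`, for all positive probability weights, and for every composition `w` which satisfies it all
compositions which contain a sufficiently high power of `w` satisfy it with exponent one.
-/

set_option autoImplicit false

namespace Pool.Agent.Results.MP_396664_co.ZeroOneLawStrong

open Pool.Agent.H812R2.PI Pool.Agent.R889.PZ Pool.Agent.R200.PT
open scoped BigOperators

open Classical in
theorem result {d : ℕ} {ι : Type} [Fintype ι] (F : ι → Fin d → List (Fin d))
    (hF : ∀ i a, F i a ≠ []) :
    (∀ w : List ι, w ≠ [] → ¬ StrongCo (compList (w.map F))) ∨
    ((∃ W : List ι, W ≠ [] ∧ ∀ l₁ l₂ : List ι, OneCo (compList ((l₁ ++ W ++ l₂).map F))) ∧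
      (∀ p : ι → ℝ, (∀ i, 0 < p i) → ∑ i, p i = 1 → ∃ C c : ℝ, 0 < c ∧ ∀ k : ℕ,
        ∑ f : Fin k → ι, (if OneCo (compList (List.ofFn fun j => F (f j))) then 0
          else ∏ j, p (f j)) ≤ C * Real.exp (-(c * k))) ∧
      ∀ w : List ι, w ≠ [] → StrongCo (compList (w.map F)) → ∃ K : ℕ, ∀ k ≥ K, ∀ l₁ l₂ : List ι,
        OneCo (compList ((l₁ ++ (List.replicate k w).flatten ++ l₂).map F))) :=
  sc_zero_one F hF

end Pool.Agent.Results.MP_396664_co.ZeroOneLawStrong
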